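import Pool.Agent.Q296.Cover.Final

/-!
# Haar measure does not minimize the mean cover time for growing random balls

On the cyclic group with four elements (graph metric of the 4-cycle), with `λ = v = 1`, the
uniform law on the two antipodal points `0` and `2` has a smaller mean cover time than the Haar
probability measure.
-/

namespace Pool.Agent.Results.MP_b215e8_pr.HaarNotOptimal

open MeasureTheory ProbabilityTheory Q296.Cover
open scoped ENNReal

theorem result :
    ∃ (S : Type) (_ : AddCommGroup S) (_ : MetricSpace S) (_ : MeasurableSpace S)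
      (_ : BorelSpace S) (_ : CompactSpace S) (_ : IsTopologicalAddGroup S),
      (∀ g x y : S, dist (g + x) (g + y) = dist x y) ∧
      ∃ μ m : Measure S, IsProbabilityMeasure μ ∧ IsProbabilityMeasure m ∧
        (∀ g : S, m.map (fun x => g + x) = m) ∧
        meanCover 1 1 μ < meanCover 1 1 m := by
  refine ⟨C4, inferInstance, inferInstance, inferInstance, inferInstance, inferInstance,
    inferInstance, ?_, mu0, (4⁻¹ : ℝ≥0∞) • Measure.count, inferInstance, ?_, ?_, ?_⟩
  · intro g x y
    rw [C4.dist_eq, C4.dist_eq, C4.gd_inv]
  · refine ⟨?_⟩
    rw [Measure.smul_apply, Measure.count_univ, smul_eq_mul, ENat.card_eq_coe_fintype_card]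
    have h : Fintype.card C4 = 4 := rfl
    rw [h]
    exact ENNReal.inv_mul_cancel (by norm_num) (by norm_num)
  · intro g
    have hmeas : Measurable (fun x : C4 => g + x) := measurable_of_countable _
    rw [Measure.map_smul, map_add_left_eq_self]
  · have hp : IsProbabilityMeasure ((4⁻¹ : ℝ≥0∞) • (Measure.count : Measure C4)) := by
      refine ⟨?_⟩
      rw [Measure.smul_apply, Measure.count_univ, smul_eq_mul, ENat.card_eq_coe_fintype_card]
      have h : Fintype.card C4 = 4 := rfl
      rw [h]
      exact ENNReal.inv_mul_cancel (by norm_num) (by norm_num)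
    refine main _ ?_
    intro g
    rw [Measure.map_smul, map_add_left_eq_self]

end Pool.Agent.Results.MP_b215e8_pr.HaarNotOptimal
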